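import Pool.Agent.Helper14.TK7.StD

/-!
# Project TK (levels `3 * 7^n`), module Tri: triangular system of symbols modulo 7
-/

set_option autoImplicit false

namespace Pool.Agent.Helper25.TK7

open Pool.Agent.Helper14.TK7
open Pool.Agent.Helper84.S7
open Pool.Agent.Helper4.TK (KTy SymK SKHk SKHkS LBK)

/-- The value only depends on the leading form. -/
private theorem lead_Tri {r s : ℕ} (hl : S7Low0) (O : Module.End (ZMod 7) (Fn7 (7 ^ r) (7 ^ s)))
    (k : ℤ) (hO : Lw O k) (F L : Fn7 (7 ^ r) (7 ^ s)) (h : F - L ∈ Wd7 (k - 1)) :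
    O F = O L := by
  have h1 := hO _ _ h
  have h2 : k - 1 - k = -1 := by ring
  rw [h2] at h1
  have h3 := (hl r s).2.2.2.2.2.2.2.2.2.2.2.2.2 _ h1
  rw [map_sub] at h3
  exact sub_eq_zero.1 h3

/-- the value of one monomial -/
private def tm (vc : ℕ → ℕ → ZMod 7) (j s B m : ℕ) : ZMod 7 :=
  if s + m ≤ B then vc j (B - (s + m)) else 0

private theorem tm_z {vc : ℕ → ℕ → ZMod 7} (h3 : ∀ j x, ¬ 3 ∣ x → vc j x = 0) {j s B m : ℕ}
    (h : ¬ (s + m ≤ B) ∨ ¬ 3 ∣ (B - (s + m))) : tm vc j s B m = 0 := by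
  unfold tm
  rcases h with h | h
  · rw [if_neg h]
  · rw [h3 _ _ h, ite_self]

private theorem tm_1 {vc : ℕ → ℕ → ZMod 7} (h0 : ∀ j, vc j 0 = 1) {j s B m : ℕ}
    (h : s + m = B) : tm vc j s B m = 1 := by
  unfold tm
  rw [if_pos h.le, h, Nat.sub_self, h0]

/-- the coefficients of the leading parts -/
private def cf (c : ℕ) (f : Fin 4) : ZMod 7 :=
  (([[1, 0, 0, 0], [4, 1, 0, 0], [1, 0, 0, 0], [0, 1, 0, 0], [-1, 1, 1, 1], [1, 0, 0, 0],
    [2, 1, 1, 1], [0, 1, 3, 0]] : List (List (ZMod 7))).getD c []).getD f.val 0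

/-- the coefficients of the second leading parts -/
private def cg (f : Fin 4) : ZMod 7 := ([-1, -2, 0, 0] : List (ZMod 7)).getD f.val 0

private theorem tpK_eq (c A B : ℕ) (f : Fin 4) {q q' : ℕ} : (tpK c A B f : Fn7 q q') =
    cf c f • bb7 A B + (if c = 7 then cg f • bb7 (A + 1) (B - 1) else 0) := rfl

private def Ec (c c' m : ℕ) : ZMod 7 :=
  cf c 0 * ((qOK c' 0 m : ℤ) : ZMod 7) + cf c 1 * ((qOK c' 1 m : ℤ) : ZMod 7) +
    cf c 2 * ((qOK c' 2 m : ℤ) : ZMod 7) + cf c 3 * ((qOK c' 3 m : ℤ) : ZMod 7)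

private def Fc (c' m : ℕ) : ZMod 7 :=
  cg 0 * ((qOK c' 0 m : ℤ) : ZMod 7) + cg 1 * ((qOK c' 1 m : ℤ) : ZMod 7) +
    cg 2 * ((qOK c' 2 m : ℤ) : ZMod 7) + cg 3 * ((qOK c' 3 m : ℤ) : ZMod 7)

/-- the nonzero coefficients -/
private def LL : List (ℕ × ℕ × ℕ) :=
  [(0, 0, 0), (0, 2, 0), (0, 4, 3), (0, 5, 1), (0, 6, 5), (1, 0, 0), (1, 1, 0), (1, 1, 1),
   (1, 2, 0), (1, 3, 0), (1, 3, 3), (1, 4, 3), (1, 5, 1), (1, 6, 5), (1, 7, 0), (1, 7, 1),
   (1, 7, 6), (1, 7, 7), (2, 0, 0), (2, 2, 0), (2, 4, 3), (2, 5, 1), (2, 6, 5), (3, 1, 0),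
   (3, 1, 1), (3, 3, 0), (3, 3, 3), (3, 7, 0), (3, 7, 1), (3, 7, 6), (3, 7, 7), (4, 0, 0),
   (4, 2, 2), (4, 4, 1), (4, 4, 3), (4, 5, 1), (4, 5, 5), (4, 6, 1), (5, 0, 0), (5, 2, 0),
   (5, 4, 3), (5, 5, 1), (5, 6, 5), (6, 0, 0), (6, 2, 0), (6, 2, 2), (6, 4, 1), (6, 5, 5),
   (6, 6, 1), (6, 6, 5)]

set_option maxRecDepth 100000 in
private theorem Etab0 : ∀ c : Fin 7, ∀ c' : Fin 8, ∀ m : Fin 8,
    Ec c.val c'.val m.val = 0 ∨ (c.val, c'.val, m.val) ∈ LL := by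
  unfold LL
  decide

private theorem Etab {c c' m : ℕ} (hc : c < 7) (hc' : c' < 8) (hm : m < 8) :
    Ec c c' m = 0 ∨ (c, c', m) ∈ LL := Etab0 ⟨c, hc⟩ ⟨c', hc'⟩ ⟨m, hm⟩

private theorem nO_le : ∀ c < 8, nOK c < 8 := by decide

private theorem ab_le : ∀ c < 8, abK c ≤ 1 := by decide

/-- the correction of the order -/
private def ep (c : ℕ) : ℕ := if 4 ≤ c ∧ c ≤ 6 then 1 else 0

private theorem rh_eq (c i j : ℕ) : rhK c i j = ep c + i + j := rfl

private theorem dg_eq (c i j : ℕ) :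
    dgK c i j = (aaK c + i + 7 * j) + (abK c + i + j) := by
  unfold dgK
  ring

private theorem big {c c' m i j i' j' A B : ℕ} (hL : (c, c', m) ∈ LL)
    (hA : A = aaK c + i + 7 * j) (hB : B = abK c + i + j)
    (hdeg : A + B = (aaK c' + i' + 7 * j') + (abK c' + i' + j'))
    (hcon : ¬ (ep c' + i' + j' < ep c + i + j ∨
      (ep c' + i' + j' = ep c + i + j ∧ (c' = c ∨ (c = 1 ∧ c' = 7))))) :
    ¬ (i' + j' + m ≤ B) ∨ ¬ 3 ∣ (B - (i' + j' + m)) := by
  have a0 : aaK 0 = 0 := rfl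
  have a1 : aaK 1 = 1 := rfl
  have a2 : aaK 2 = 2 := rfl
  have a3 : aaK 3 = 3 := rfl
  have a4 : aaK 4 = 3 := rfl
  have a5 : aaK 5 = 5 := rfl
  have a6 : aaK 6 = 5 := rfl
  have a7 : aaK 7 = 6 := rfl
  have b0 : abK 0 = 0 := rfl
  have b1 : abK 1 = 0 := rfl
  have b2 : abK 2 = 0 := rfl
  have b3 : abK 3 = 0 := rfl
  have b4 : abK 4 = 1 := rfl
  have b5 : abK 5 = 1 := rfl
  have b6 : abK 6 = 1 := rfl
  have b7 : abK 7 = 1 := rfl
  have e0 : ep 0 = 0 := rfl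
  have e1 : ep 1 = 0 := rfl
  have e2 : ep 2 = 0 := rfl
  have e3 : ep 3 = 0 := rfl
  have e4 : ep 4 = 1 := rfl
  have e5 : ep 5 = 1 := rfl
  have e6 : ep 6 = 1 := rfl
  have e7 : ep 7 = 0 := rfl
  simp only [LL, List.mem_cons, List.not_mem_nil, or_false, Prod.mk.injEq] at hL
  rcases hL with
    ⟨rfl, rfl, rfl⟩ | ⟨rfl, rfl, rfl⟩ | ⟨rfl, rfl, rfl⟩ | ⟨rfl, rfl, rfl⟩ | ⟨rfl, rfl, rfl⟩ |
    ⟨rfl, rfl, rfl⟩ | ⟨rfl, rfl, rfl⟩ | ⟨rfl, rfl, rfl⟩ | ⟨rfl, rfl, rfl⟩ | ⟨rfl, rfl, rfl⟩ |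
    ⟨rfl, rfl, rfl⟩ | ⟨rfl, rfl, rfl⟩ | ⟨rfl, rfl, rfl⟩ | ⟨rfl, rfl, rfl⟩ | ⟨rfl, rfl, rfl⟩ |
    ⟨rfl, rfl, rfl⟩ | ⟨rfl, rfl, rfl⟩ | ⟨rfl, rfl, rfl⟩ | ⟨rfl, rfl, rfl⟩ | ⟨rfl, rfl, rfl⟩ |
    ⟨rfl, rfl, rfl⟩ | ⟨rfl, rfl, rfl⟩ | ⟨rfl, rfl, rfl⟩ | ⟨rfl, rfl, rfl⟩ | ⟨rfl, rfl, rfl⟩ |
    ⟨rfl, rfl, rfl⟩ | ⟨rfl, rfl, rfl⟩ | ⟨rfl, rfl, rfl⟩ | ⟨rfl, rfl, rfl⟩ | ⟨rfl, rfl, rfl⟩ |
    ⟨rfl, rfl, rfl⟩ | ⟨rfl, rfl, rfl⟩ | ⟨rfl, rfl, rfl⟩ | ⟨rfl, rfl, rfl⟩ | ⟨rfl, rfl, rfl⟩ |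
    ⟨rfl, rfl, rfl⟩ | ⟨rfl, rfl, rfl⟩ | ⟨rfl, rfl, rfl⟩ | ⟨rfl, rfl, rfl⟩ | ⟨rfl, rfl, rfl⟩ |
    ⟨rfl, rfl, rfl⟩ | ⟨rfl, rfl, rfl⟩ | ⟨rfl, rfl, rfl⟩ | ⟨rfl, rfl, rfl⟩ | ⟨rfl, rfl, rfl⟩ |
    ⟨rfl, rfl, rfl⟩ | ⟨rfl, rfl, rfl⟩ | ⟨rfl, rfl, rfl⟩ | ⟨rfl, rfl, rfl⟩ | ⟨rfl, rfl, rfl⟩
  all_goals omega

/-- TRI. -/
theorem hTri (hl : S7Low0) (hb : S7Bb) (hd : TLed) (hx : TEx) (hi : TItr) (hf : TTrf) :
    TTri := by
  intro r s c i j hc hr hs
  obtain ⟨hf1, vc, v0, v3, hf2⟩ := hf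
  obtain ⟨F, hRel, hF⟩ := hd r s c i j hc hr hs
  obtain ⟨G, hG, hGF⟩ := hx (ZMod 7) inferInstance r s F hRel
  obtain ⟨A, hA⟩ : ∃ A, A = aaK c + i + 7 * j := ⟨_, rfl⟩
  obtain ⟨B, hB⟩ : ∃ B, B = abK c + i + j := ⟨_, rfl⟩
  have hdg : dgK c i j = A + B := by rw [dg_eq, hA, hB]
  rw [← hA] at hr
  rw [← hB] at hs
  rw [← hA, ← hB] at hF
  have hB1 : c = 7 → 1 ≤ B := by
    rintro rfl
    have : abK 7 = 1 := rfl
    omega
  have hbb : (bb7 A B : Fn7 (7 ^ r) (7 ^ s)) ∈ Wd7 ((A : ℤ) + B) := (hb r s).1 A B hr hs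
  -- the second function
  have hz : ¬ (A + 1 < 7 ^ r) → (bb7 (A + 1) (B - 1) : Fn7 (7 ^ r) (7 ^ s)) = 0 := by
    intro h
    have : NeZero (7 ^ r) := ⟨by positivity⟩
    funext x y
    have h1 : x.val < A + 1 := lt_of_lt_of_le (ZMod.val_lt x) (not_lt.1 h)
    show ((x.val.choose (A + 1) * y.val.choose (B - 1) : ℕ) : ZMod 7) = 0
    rw [Nat.choose_eq_zero_of_lt h1, zero_mul, Nat.cast_zero]
  have hbb7 : c = 7 → (bb7 (A + 1) (B - 1) : Fn7 (7 ^ r) (7 ^ s)) ∈ Wd7 ((A : ℤ) + B) := by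
    intro h
    by_cases h1 : A + 1 < 7 ^ r
    · have h2 := (hb r s).1 (A + 1) (B - 1) h1 (by omega)
      have h3 : ((A + 1 : ℕ) : ℤ) + ((B - 1 : ℕ) : ℤ) = (A : ℤ) + B := by
        have := hB1 h
        omega
      rw [h3] at h2
      exact h2
    · rw [hz h1]
      exact Submodule.zero_mem _
  have htp : ∀ f : Fin 4, (tpK c A B f : Fn7 (7 ^ r) (7 ^ s)) ∈ Wd7 ((A : ℤ) + B) := by
    intro f
    rw [tpK_eq]
    refine Submodule.add_mem _ (Submodule.smul_mem _ _ hbb) ?_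
    split_ifs with h
    · exact Submodule.smul_mem _ _ (hbb7 h)
    · exact Submodule.zero_mem _
  have hdz : ((A + B : ℕ) : ℤ) = (A : ℤ) + B := by push_cast; ring
  have hF' : ∀ f : Fin 4, F f - tpK c A B f ∈ Wd7 ((A : ℤ) + B - 1) := by
    intro f
    have h := hF f
    rw [hdg, hdz] at h
    exact h
  have hFd : ∀ f : Fin 4, F f ∈ Wd7 ((A : ℤ) + B) := by
    intro f
    have h1 : F f = (F f - tpK c A B f) + tpK c A B f := by rw [sub_add_cancel]
    rw [h1]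
    exact Submodule.add_mem _ ((hl r s).2.2.2.2.1 _ _ (by omega) (hF' f)) (htp f)
  have hI := hi r s G (A + B) hG (fun f => by rw [hGF f, hdz]; exact hFd f)
  have hV : ∀ (c' i' j' A' B' : ℕ) (f : Fin 4), c' ≤ 7 → A' < 7 ^ r → B' < 7 ^ s →
      A' + B' = dgK c' i' j' →
      ((MoK c' f.val * QoK ^ i' * LoK ^ j' : Module.End (ZMod 7) (Fn7 (7 ^ r) (7 ^ s)))
        (bb7 A' B')) 0 0 = ∑ m ∈ Finset.range (nOK c' + 1),
          ((qOK c' f.val m : ℤ) : ZMod 7) * tm vc j' (i' + j') B' m := by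
    intro c' i' j' A' B' f hc' hA' hB' h
    rw [hf2 r s c' i' j' A' B' f hc' hA' hB' h]
    refine Finset.sum_congr rfl fun m _ => ?_
    unfold tm
    split_ifs
    · rfl
    · rw [mul_zero]
  have hterm : ∀ (c' i' j' : ℕ) (f : Fin 4), c' ≤ 7 → dgK c' i' j' = A + B →
      ((MoK c' f.val * QoK ^ i' * LoK ^ j' : Module.End (ZMod 7) (Fn7 (7 ^ r) (7 ^ s)))
        (tpK c A B f)) 0 0 = cf c f * ∑ m ∈ Finset.range (nOK c' + 1),
          ((qOK c' f.val m : ℤ) : ZMod 7) * tm vc j' (i' + j') B m +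
        (if c = 7 ∧ A + 1 < 7 ^ r then cg f * ∑ m ∈ Finset.range (nOK c' + 1),
          ((qOK c' f.val m : ℤ) : ZMod 7) * tm vc j' (i' + j') (B - 1) m else 0) := by
    intro c' i' j' f hc' h
    rw [tpK_eq, map_add, map_smul, Pi.add_apply, Pi.add_apply, Pi.smul_apply, Pi.smul_apply,
      smul_eq_mul, hV c' i' j' A B f hc' hr hs h.symm]
    congr 1
    by_cases h7 : c = 7
    · by_cases h1 : A + 1 < 7 ^ r
      · rw [if_pos h7, if_pos ⟨h7, h1⟩, map_smul, Pi.smul_apply, Pi.smul_apply, smul_eq_mul,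
          hV c' i' j' (A + 1) (B - 1) f hc' h1 (by omega) (by have := hB1 h7; omega)]
      · rw [if_pos h7, if_neg (fun h' => h1 h'.2), hz h1, smul_zero, map_zero]
        rfl
    · rw [if_neg h7, if_neg (fun h' => h7 h'.1), map_zero]
      rfl
  have hval : ∀ c' i' j' : ℕ, c' ≤ 7 → dgK c' i' j' = A + B →
      evK (7 ^ r) G c' i' j' = ∑ m ∈ Finset.range (nOK c' + 1),
        Ec c c' m * tm vc j' (i' + j') B m +
        (if c = 7 ∧ A + 1 < 7 ^ r then ∑ m ∈ Finset.range (nOK c' + 1),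
          Fc c' m * tm vc j' (i' + j') (B - 1) m else 0) := by
    intro c' i' j' hc' h
    have h1 : evK (7 ^ r) G c' i' j' = ∑ f : Fin 4,
        ((MoK c' f.val * QoK ^ i' * LoK ^ j' : Module.End (ZMod 7) (Fn7 (7 ^ r) (7 ^ s)))
          (tpK c A B f)) 0 0 := by
      rw [(hI c' i' j' hc').2 h]
      refine Finset.sum_congr rfl fun f _ => ?_
      rw [hGF f]
      have h1 := hf1 r s c' i' j' f hc'
      rw [h, hdz] at h1
      rw [lead_Tri hl _ _ h1 (F f) (tpK c A B f) (hF' f)]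
    rw [h1, Finset.sum_congr rfl fun f _ => hterm c' i' j' f hc' h, Finset.sum_add_distrib]
    congr 1
    · simp only [Finset.mul_sum]
      rw [Finset.sum_comm]
      refine Finset.sum_congr rfl fun m _ => ?_
      rw [Fin.sum_univ_four]
      unfold Ec
      show cf c 0 * (((qOK c' 0 m : ℤ) : ZMod 7) * tm vc j' (i' + j') B m) +
        cf c 1 * (((qOK c' 1 m : ℤ) : ZMod 7) * tm vc j' (i' + j') B m) +
        cf c 2 * (((qOK c' 2 m : ℤ) : ZMod 7) * tm vc j' (i' + j') B m) +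
        cf c 3 * (((qOK c' 3 m : ℤ) : ZMod 7) * tm vc j' (i' + j') B m) = _
      ring
    · split_ifs
      · simp only [Finset.mul_sum]
        rw [Finset.sum_comm]
        refine Finset.sum_congr rfl fun m _ => ?_
        rw [Fin.sum_univ_four]
        unfold Fc
        show cg 0 * (((qOK c' 0 m : ℤ) : ZMod 7) * tm vc j' (i' + j') (B - 1) m) +
          cg 1 * (((qOK c' 1 m : ℤ) : ZMod 7) * tm vc j' (i' + j') (B - 1) m) +
          cg 2 * (((qOK c' 2 m : ℤ) : ZMod 7) * tm vc j' (i' + j') (B - 1) m) +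
          cg 3 * (((qOK c' 3 m : ℤ) : ZMod 7) * tm vc j' (i' + j') (B - 1) m) = _
        ring
      · exact Finset.sum_const_zero
  refine ⟨G, hG, ?_, ?_⟩
  · rw [hval c i j hc hdg]
    have hab := ab_le c (by omega)
    have h1 : ∑ m ∈ Finset.range (nOK c + 1), Ec c c m * tm vc j (i + j) B m =
        Ec c c (abK c) := by
      rw [Finset.sum_eq_single (abK c)]
      · rw [tm_1 v0 (by omega), mul_one]
      · intro m _ hm
        rw [tm_z v3 (by omega), mul_zero]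
      · intro h
        exact absurd (Finset.mem_range.2 (by unfold nOK; omega)) h
    rw [h1]
    by_cases h7 : c = 7
    · subst h7
      have b7 : abK 7 = 1 := rfl
      split_ifs with h2
      · have h3 : ∑ m ∈ Finset.range (nOK 7 + 1), Fc 7 m * tm vc j (i + j) (B - 1) m =
            Fc 7 0 := by
          rw [Finset.sum_eq_single 0]
          · rw [tm_1 v0 (by omega), mul_one]
          · intro m _ hm
            rw [tm_z v3 (by omega), mul_zero]
          · intro h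
            exact absurd (Finset.mem_range.2 (by omega)) h
        rw [h3]
        decide
      · rw [add_zero]
        decide
    · rw [if_neg (fun h' => h7 h'.1), add_zero]
      have h2 : ∀ c < 7, Ec c c (abK c) ≠ 0 := by decide
      exact h2 c (by omega)
  · intro c' i' j' hc' hr' hne
    rw [hdg, rh_eq, rh_eq]
    rcases lt_trichotomy (dgK c' i' j') (A + B) with h | h | h
    · exact Or.inl h
    · refine Or.inr ⟨h, ?_⟩
      by_contra hcon
      apply hne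
      have hdeg : A + B = (aaK c' + i' + 7 * j') + (abK c' + i' + j') := by
        rw [← h, dg_eq]
      rw [hval c' i' j' hc' h]
      by_cases h7 : c = 7
      · subst h7
        have a7 : aaK 7 = 6 := rfl
        have b7 : abK 7 = 1 := rfl
        have e7 : ep 7 = 0 := rfl
        rw [a7] at hA
        rw [b7] at hB
        rw [e7] at hcon
        have hsp : (B < i' + j') ∨ (c' = 1 ∧ i' + j' = i + j ∧ A + 1 < 7 ^ r) := by
          interval_cases c'
          · have q1 : aaK 0 = 0 := rfl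
            have q2 : abK 0 = 0 := rfl
            have q3 : ep 0 = 0 := rfl
            rw [q1] at hdeg hr'
            rw [q2] at hdeg
            rw [q3] at hcon
            omega
          · have q1 : aaK 1 = 1 := rfl
            have q2 : abK 1 = 0 := rfl
            have q3 : ep 1 = 0 := rfl
            rw [q1] at hdeg hr'
            rw [q2] at hdeg
            rw [q3] at hcon
            omega
          · have q1 : aaK 2 = 2 := rfl
            have q2 : abK 2 = 0 := rfl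
            have q3 : ep 2 = 0 := rfl
            rw [q1] at hdeg hr'
            rw [q2] at hdeg
            rw [q3] at hcon
            omega
          · have q1 : aaK 3 = 3 := rfl
            have q2 : abK 3 = 0 := rfl
            have q3 : ep 3 = 0 := rfl
            rw [q1] at hdeg hr'
            rw [q2] at hdeg
            rw [q3] at hcon
            omega
          · have q1 : aaK 4 = 3 := rfl
            have q2 : abK 4 = 1 := rfl
            have q3 : ep 4 = 1 := rfl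
            rw [q1] at hdeg hr'
            rw [q2] at hdeg
            rw [q3] at hcon
            omega
          · have q1 : aaK 5 = 5 := rfl
            have q2 : abK 5 = 1 := rfl
            have q3 : ep 5 = 1 := rfl
            rw [q1] at hdeg hr'
            rw [q2] at hdeg
            rw [q3] at hcon
            omega
          · have q1 : aaK 6 = 5 := rfl
            have q2 : abK 6 = 1 := rfl
            have q3 : ep 6 = 1 := rfl
            rw [q1] at hdeg hr'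
            rw [q2] at hdeg
            rw [q3] at hcon
            omega
          · rw [a7] at hdeg hr'
            rw [b7] at hdeg
            rw [e7] at hcon
            omega
        rcases hsp with h1 | ⟨rfl, h1, h2⟩
        · have k1 : ∑ m ∈ Finset.range (nOK c' + 1), Ec 7 c' m * tm vc j' (i' + j') B m = 0 :=
            Finset.sum_eq_zero fun m _ => by rw [tm_z v3 (by omega), mul_zero]
          have k2 : ∑ m ∈ Finset.range (nOK c' + 1), Fc c' m * tm vc j' (i' + j') (B - 1) m = 0 :=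
            Finset.sum_eq_zero fun m _ => by rw [tm_z v3 (by omega), mul_zero]
          rw [k1, k2, ite_self, add_zero]
        · have n1 : nOK 1 = 1 := rfl
          rw [if_pos ⟨rfl, h2⟩, n1]
          simp only [Finset.sum_range_succ, Finset.sum_range_zero, zero_add]
          have t0 : tm vc j' (i' + j') B 0 = 0 := tm_z v3 (by omega)
          have t1 : tm vc j' (i' + j') B 1 = 1 := tm_1 v0 (by omega)
          have t2 : tm vc j' (i' + j') (B - 1) 0 = 1 := tm_1 v0 (by omega)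
          have t3 : tm vc j' (i' + j') (B - 1) 1 = 0 := tm_z v3 (by omega)
          rw [t0, t1, t2, t3]
          decide
      · rw [if_neg (fun h' => h7 h'.1), add_zero]
        refine Finset.sum_eq_zero fun m hm => ?_
        have hm8 : m < 8 := by
          have h1 := Finset.mem_range.1 hm
          have h2 := nO_le c' (by omega)
          omega
        rcases Etab (c := c) (c' := c') (by omega) (by omega) hm8 with h1 | h1
        · rw [h1, zero_mul]
        · rw [tm_z v3 (big h1 hA hB hdeg hcon), mul_zero]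
    · exact absurd ((hI c' i' j' hc').1 h) hne

end Pool.Agent.Helper25.TK7
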